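import Pool.Agent.Helper3_ZAR.STC

/-!
# Row GPU: generic projections of two families
-/

namespace Pool.Agent.ZAR.H3

open MvPowerSeries

section aux

variable {K L : Type} [Field K] [Field L] [Algebra K L]

theorem cc_subst {m n : ℕ} (a : Fin m → MvPowerSeries (Fin n) K)
    (ha : ∀ i, constantCoeff (a i) = 0) (f : MvPowerSeries (Fin m) K) :
    constantCoeff (subst a f) = constantCoeff f := by
  have hs : HasSubst a := hasSubst_of_constantCoeff_zero ha
  have h1 : f = C (constantCoeff f) + (f - C (constantCoeff f)) := by ring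
  have h2 : constantCoeff (f - C (constantCoeff f)) = 0 := by simp
  conv_lhs => rw [h1]
  rw [subst_add hs, subst_C, map_add, constantCoeff_C, constantCoeff_subst_eq_zero hs ha h2,
    add_zero]

theorem subst_sum' {m n : ℕ} {ι : Type*} (t : Finset ι) (a : Fin m → MvPowerSeries (Fin n) K)
    (hs : HasSubst a) (f : ι → MvPowerSeries (Fin m) K) :
    subst a (∑ i ∈ t, f i) = ∑ i ∈ t, subst a (f i) := by
  rw [← coe_substAlgHom hs, map_sum]

/-- Tangent vectors of the push forward. -/
theorem tan_pf (hCHA : CHAStmt) {n p q : ℕ} (u : Fin n → Fin (n + 1) → L)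
    (x : Fin (n + 1) → MvPowerSeries (Fin (n + 1)) K) (a : Fin (n + 1) → MvPowerSeries (Fin p) K)
    (s : Fin p → MvPowerSeries (Fin q) K) (ha : ∀ i, constantCoeff (a i) = 0)
    (hs : ∀ i, constantCoeff (s i) = 0) (l : Fin p) (i : Fin n) :
    subst (fun l => bc K L (Fin q) (s l)) (pderiv L l (pf u x a i)) =
      ∑ j, C (u i j) * bc K L (Fin q) (∑ m, subst (fun j => subst s (a j)) (pderiv K m (x j)) *
        subst s (pderiv K l (a m))) := by
  have hS : HasSubst s := hasSubst_of_constantCoeff_zero hs
  have hA : HasSubst a := hasSubst_of_constantCoeff_zero ha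
  have hS' : HasSubst (fun l => bc K L (Fin q) (s l)) := hS.map _
  have h1 : pderiv L l (pf u x a i) =
      ∑ j, C (u i j) * bc K L (Fin p) (pderiv K l (subst a (x j))) := by
    simp only [pf, map_sum]
    refine Finset.sum_congr rfl fun j _ => ?_
    rw [Derivation.leibniz, pderiv_C, smul_zero, add_zero, smul_eq_mul, pderiv_bc]
  rw [h1, subst_sum' _ _ hS']
  refine Finset.sum_congr rfl fun j _ => ?_
  rw [subst_mul hS', subst_C]
  congr 1
  have h2 : subst (fun l => bc K L (Fin q) (s l)) (bc K L (Fin p) (pderiv K l (subst a (x j)))) =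
      bc K L (Fin q) (subst s (pderiv K l (subst a (x j)))) :=
    (map_subst hS _).symm
  rw [h2, hCHA K (n + 1) p a ha (x j) l, subst_sum' _ _ hS]
  congr 1
  refine Finset.sum_congr rfl fun m _ => ?_
  rw [subst_mul hS, subst_comp_subst_apply hA hS]

end aux

/-- GPU. -/
theorem gpu (hCHA : CHAStmt) (hGDT : GDTStmt) (hPFS : PFSStmt) (hTVD : TVDStmt) : GPUStmt := by
  intro K L _ _ _ n p p' q u x a a' s s' c r hG hx ha ha' hs hs' hY hdet
  obtain ⟨hx0, hxd⟩ := hx
  set Y : Fin (n + 1) → MvPowerSeries (Fin q) K := fun j => subst s (a j) with hYd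
  have hY' : (fun j => subst s' (a' j)) = Y := by
    funext j
    exact (hY j).symm
  have hYc : ∀ i, constantCoeff (Y i) = 0 := by
    intro i
    rw [hYd, cc_subst s hs, ha]
  -- the matrices
  set J : Matrix (Fin (n + 1)) (Fin (n + 1)) (MvPowerSeries (Fin q) K) :=
    Matrix.of fun i j => subst Y (pderiv K j (x i)) with hJ
  set T := tanM a a' s s' c with hT
  have hJdet : J.det ≠ 0 := by
    intro h0
    apply hxd
    have h1 : constantCoeff J.det = (jac0 x).det := by
      rw [RingHom.map_det]
      congr 1
      ext1 i j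
      simp only [RingHom.mapMatrix_apply, Matrix.map_apply, hJ, Matrix.of_apply, jac0]
      exact cc_subst Y hYc _
    rw [← h1, h0, map_zero]
  have hBN : ((J.adjugate.submatrix r id) * (J * T)).det ≠ 0 := by
    have h1 : (J.adjugate.submatrix r id) * (J * T) = J.det • T.submatrix r id := by
      have h2 : (J.adjugate.submatrix r id) * (J * T) =
          (J.adjugate * (J * T)).submatrix r id := rfl
      rw [h2, ← Matrix.mul_assoc, Matrix.adjugate_mul, Matrix.smul_mul, Matrix.one_mul]
      rfl
    rw [h1, Matrix.det_smul]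
    exact mul_ne_zero (pow_ne_zero _ hJdet) hdet
  have hkey := hGDT K L n q u hG (J * T) (J.adjugate.submatrix r id) hBN
  have hcommon : ∀ i, subst (fun l => bc K L (Fin q) (s l)) (pf u x a i) =
      subst (fun l => bc K L (Fin q) (s' l)) (pf u x a' i) := by
    intro i
    have h1 := (hPFS K L n p q u x a s hx0 ha hs).2 i
    have h2 := (hPFS K L n p' q u x a' s' hx0 ha' hs').2 i
    rw [← h1, ← h2, hY']
  refine hTVD L n p p' q (pf u x a) (pf u x a') _ _ c ?_ ?_ hcommon ?_
  · intro i
    simp only [bc, constantCoeff_map, hs, map_zero]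
  · intro i
    simp only [bc, constantCoeff_map, hs', map_zero]
  · have hM : tanM (pf u x a) (pf u x a') (fun i => bc K L (Fin q) (s i))
        (fun i => bc K L (Fin q) (s' i)) c =
        (Matrix.of fun i j => (C (u i j) : MvPowerSeries (Fin q) L)) *
          (J * T).map (bc K L (Fin q)) := by
      ext1 i k
      simp only [tanM, Matrix.of_apply, Matrix.mul_apply, Matrix.map_apply]
      rcases hck : c k with l | l
      · simp only [Sum.elim_inl]
        rw [tan_pf hCHA u x a s ha hs l i]
        refine Finset.sum_congr rfl fun j _ => ?_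
        congr 2
        refine Finset.sum_congr rfl fun m _ => ?_
        simp only [hJ, hT, tanM, Matrix.of_apply, hck, Sum.elim_inl]
        rfl
      · simp only [Sum.elim_inr]
        rw [tan_pf hCHA u x a' s' ha' hs' l i, hY']
        refine Finset.sum_congr rfl fun j _ => ?_
        congr 2
        refine Finset.sum_congr rfl fun m _ => ?_
        simp only [hJ, hT, tanM, Matrix.of_apply, hck, Sum.elim_inr]
    rw [hM]
    exact hkey

end Pool.Agent.ZAR.H3
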