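import Pool.Agent.ZAR.Stmts

/-!
# Row STC: stability passes to the critical variety for the standard basis
-/

namespace Pool.Agent.ZAR.H3

open MvPowerSeries

section dd

variable {n : ℕ} {K : Type} [Field K]

/-- The constant derivation with direction `e`. -/
noncomputable def dd (e : Fin n → K) (f : MvPowerSeries (Fin n) K) : MvPowerSeries (Fin n) K :=
  ∑ j, C (e j) * pderiv K j f

theorem dd_add (e : Fin n → K) (f g : MvPowerSeries (Fin n) K) :
    dd e (f + g) = dd e f + dd e g := by
  simp only [dd, map_add, mul_add, Finset.sum_add_distrib]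

theorem dd_zero (e : Fin n → K) : dd e 0 = 0 := by simp [dd]

theorem dd_mul (e : Fin n → K) (f g : MvPowerSeries (Fin n) K) :
    dd e (f * g) = f * dd e g + g * dd e f := by
  simp only [dd, Derivation.leibniz, smul_eq_mul, mul_add, Finset.sum_add_distrib, Finset.mul_sum]
  congr 1 <;> exact Finset.sum_congr rfl fun _ _ => by ring

theorem dd_C (e : Fin n → K) (a : K) : dd e (C a) = 0 := by simp [dd]

theorem dd_C_mul (e : Fin n → K) (a : K) (f : MvPowerSeries (Fin n) K) :
    dd e (C a * f) = C a * dd e f := by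
  rw [dd_mul, dd_C, mul_zero, add_zero]

theorem dd_sum {ι : Type*} (s : Finset ι) (e : Fin n → K) (f : ι → MvPowerSeries (Fin n) K) :
    dd e (∑ i ∈ s, f i) = ∑ i ∈ s, dd e (f i) := by
  classical
  induction s using Finset.induction_on with
  | empty => simp [dd_zero]
  | insert a s ha ih => rw [Finset.sum_insert ha, Finset.sum_insert ha, dd_add, ih]

theorem pderiv_comm (i j : Fin n) (f : MvPowerSeries (Fin n) K) :
    pderiv K i (pderiv K j f) = pderiv K j (pderiv K i f) := by
  ext d
  simp only [coeff_pderiv]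
  rcases eq_or_ne i j with rfl | h
  · rfl
  · rw [add_right_comm]
    have h1 : (d + Finsupp.single i 1 : Fin n →₀ ℕ) j = d j := by
      simp [h]
    have h2 : (d + Finsupp.single j 1 : Fin n →₀ ℕ) i = d i := by
      simp [h.symm]
    rw [h1, h2]
    ring

theorem dd_dd (e w : Fin n → K) (f : MvPowerSeries (Fin n) K) :
    dd e (dd w f) = dd w (dd e f) := by
  have h1 : ∀ a b : Fin n → K, dd a (dd b f) =
      ∑ j, ∑ i, C (b j) * (C (a i) * pderiv K i (pderiv K j f)) := by
    intro a b
    conv_lhs => rw [dd.eq_def b f, dd_sum]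
    refine Finset.sum_congr rfl fun j _ => ?_
    rw [dd_C_mul, dd, Finset.mul_sum]
  rw [h1, h1, Finset.sum_comm]
  refine Finset.sum_congr rfl fun j _ => Finset.sum_congr rfl fun i _ => ?_
  rw [pderiv_comm]
  ring

theorem stab_span (e : Fin n → K) (S : Set (MvPowerSeries (Fin n) K))
    (h : ∀ f ∈ S, dd e f ∈ Ideal.span S) : Stab e (Ideal.span S) := by
  intro f hf
  change dd e f ∈ _
  induction hf using Submodule.span_induction with
  | mem x hx => exact h x hx
  | zero => rw [dd_zero]; exact Ideal.zero_mem _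
  | add x y hx hy h1 h2 => rw [dd_add]; exact Ideal.add_mem _ h1 h2
  | smul a x hx h1 =>
    rw [smul_eq_mul, dd_mul]
    exact Ideal.add_mem _ (Ideal.mul_mem_left _ _ h1) (Ideal.mul_mem_right _ _ hx)

end dd

section bc

variable {n : ℕ} {K L : Type} [Field K] [Field L] [Algebra K L]

theorem pderiv_bc (j : Fin n) (f : MvPowerSeries (Fin n) K) :
    pderiv L j (bc K L (Fin n) f) = bc K L (Fin n) (pderiv K j f) := by
  ext d
  simp only [coeff_pderiv, bc, coeff_map, map_mul, map_add, map_natCast, map_one]

theorem dd_bc (e : Fin n → K) (f : MvPowerSeries (Fin n) K) :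
    dd (fun j => algebraMap K L (e j)) (bc K L (Fin n) f) = bc K L (Fin n) (dd e f) := by
  simp only [dd, map_sum, map_mul, pderiv_bc, bc, map_C]

theorem xu_X (u : Fin n → Fin (n + 1) → L) (i : Fin n) :
    xu u (X : Fin (n + 1) → MvPowerSeries (Fin (n + 1)) K) i = ∑ j, C (u i j) * X j := by
  simp only [xu, bc, map_X]

theorem pderiv_xu (u : Fin n → Fin (n + 1) → L) (i : Fin n) (k : Fin (n + 1)) :
    pderiv L k (xu u (X : Fin (n + 1) → MvPowerSeries (Fin (n + 1)) K) i) = C (u i k) := by
  rw [xu_X, map_sum, Finset.sum_eq_single k]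
  · rw [Derivation.leibniz, pderiv_C, pderiv_X_self]
    simp
  · intro b _ hb
    rw [Derivation.leibniz, pderiv_C, pderiv_X_of_ne hb]
    simp
  · simp

theorem cc_xu (u : Fin n → Fin (n + 1) → L) (i : Fin n) :
    constantCoeff (xu u (X : Fin (n + 1) → MvPowerSeries (Fin (n + 1)) K) i) = 0 := by
  rw [xu_X, map_sum]
  simp

theorem jac_xu (u : Fin n → Fin (n + 1) → L) (f : MvPowerSeries (Fin (n + 1)) L) :
    jac (xu u (X : Fin (n + 1) → MvPowerSeries (Fin (n + 1)) K)) f = dd (kv u) f := by
  unfold jac dd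
  rw [Matrix.det_succ_row_zero]
  refine Finset.sum_congr rfl fun j _ => ?_
  have h1 : ((Matrix.of fun a j : Fin (n + 1) =>
      pderiv L j ((Fin.cons f (xu u (X : Fin (n + 1) → MvPowerSeries (Fin (n + 1)) K)) :
        Fin (n + 1) → MvPowerSeries (Fin (n + 1)) L) a)).submatrix Fin.succ j.succAbove) =
      (C : L →+* MvPowerSeries (Fin (n + 1)) L).mapMatrix
        (Matrix.of fun i k : Fin n => u i (j.succAbove k)) := by
    ext1 a b
    simp only [Matrix.submatrix_apply, Matrix.of_apply, Fin.cons_succ, RingHom.mapMatrix_apply,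
      Matrix.map_apply]
    exact pderiv_xu u a _
  rw [h1, ← RingHom.map_det]
  simp only [Matrix.of_apply, Fin.cons_zero, kv, map_mul, map_pow, map_neg, map_one]
  ring

end bc

/-- STC. -/
theorem stc (hCHA : CHAStmt) (hRDS : RDSStmt) : STCStmt := by
  intro K L _ _ _ _ n u e I hI
  have : CharZero L := charZero_of_injective_algebraMap (algebraMap K L).injective
  set e' : Fin (n + 1) → L := fun j => algebraMap K L (e j) with he'
  set y := xu u (X : Fin (n + 1) → MvPowerSeries (Fin (n + 1)) K) with hy
  -- the variety over `L`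
  have h1 : Stab e' (I.map (bc K L (Fin (n + 1)))) := by
    apply stab_span
    rintro _ ⟨f, hf, rfl⟩
    rw [dd_bc]
    exact Ideal.mem_map_of_mem _ (hI f hf)
  have h2 : Stab e' (extI L I) := hRDS L (n + 1) e' _ h1
  -- the critical locus
  have h3 : Stab e' (critLocus y (extI L I)) := by
    apply stab_span
    rintro f (hf | ⟨f, hf, rfl⟩)
    · exact Ideal.subset_span (Or.inl (h2 f hf))
    · apply Ideal.subset_span
      refine Or.inr ⟨dd e' f, h2 f hf, ?_⟩
      rw [hy, jac_xu, jac_xu, dd_dd]
  -- the projection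
  have hs : HasSubst y := hasSubst_of_constantCoeff_zero fun i => cc_xu u i
  have h4 : ∀ g : MvPowerSeries (Fin n) L,
      dd e' (subst y g) = subst y (dd (fun i => ∑ j, u i j * e' j) g) := by
    intro g
    have h5 : ∀ j, pderiv L j (subst y g) = ∑ i, subst y (pderiv L i g) * C (u i j) := by
      intro j
      rw [hCHA L n (n + 1) y (fun i => cc_xu u i) g j]
      refine Finset.sum_congr rfl fun i _ => ?_
      rw [hy, pderiv_xu]
    have h6 : subst y (dd (fun i => ∑ j, u i j * e' j) g) =
        ∑ i, C (∑ j, u i j * e' j) * subst y (pderiv L i g) := by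
      rw [dd, ← coe_substAlgHom hs, map_sum]
      refine Finset.sum_congr rfl fun i _ => ?_
      rw [map_mul, coe_substAlgHom hs, subst_C]
    rw [h6, dd]
    simp only [h5, Finset.mul_sum, map_sum, Finset.sum_mul]
    rw [Finset.sum_comm]
    refine Finset.sum_congr rfl fun i _ => Finset.sum_congr rfl fun j _ => ?_
    rw [map_mul]
    ring
  refine hRDS L n _ _ (stab_span _ _ ?_)
  intro g hg
  apply Ideal.subset_span
  change subst y _ ∈ critLocus y (extI L I)
  rw [← h4]
  exact h3 _ hg

end Pool.Agent.ZAR.H3
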